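import Pool.Agent.Helper85.BHW.Final

/-!
Restriction of a body and a lattice to the space spanned by the lattice points of the body.
-/

set_option autoImplicit false
open scoped Pointwise
open Module

namespace Pool.Agent.SMG

open Pool.Agent.Helper85.BHW (E Lat lam lamSet lam_pos lam_mono lamSet_bddBelow lamSet_nonempty
  zero_mem_interior)

theorem reduce {d : ℕ} (b : Basis (Fin d) ℝ (E d)) (K : Set (E d)) (hc : Convex ℝ K)
    (hcomp : IsCompact K) (hint : (interior K).Nonempty) (hsymm : ∀ x ∈ K, -x ∈ K) :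
    ∃ (e : ℕ) (he : e ≤ d) (b' : Basis (Fin e) ℝ (E e)) (K' : Set (E e)),
      Convex ℝ K' ∧ IsCompact K' ∧ (interior K').Nonempty ∧ (∀ x ∈ K', -x ∈ K') ∧
      (K ∩ (Lat b : Set (E d))).ncard = (K' ∩ (Lat b' : Set (E e))).ncard ∧
      (∀ i : Fin e, lam b K (Fin.castLE he i) ≤ 1) ∧
      (∀ i : Fin e, lam b K (Fin.castLE he i) ≤ lam b' K' i) := by
  classical
  let V : Submodule ℝ (E d) := Submodule.span ℝ (K ∩ (Lat b : Set (E d)))
  let M : Submodule ℤ V := (Lat b).comap (V.subtype.restrictScalars ℤ)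
  have hM : ∀ x : V, x ∈ M ↔ (x : E d) ∈ Lat b := fun x => Iff.rfl
  have hdisc : DiscreteTopology M := by
    have hd : DiscreteTopology (Lat b) := inferInstance
    let f : M → Lat b := fun x => ⟨((x : V) : E d), x.2⟩
    have hf : Continuous f := by
      apply Continuous.subtype_mk
      exact continuous_subtype_val.comp continuous_subtype_val
    have hfi : Function.Injective f := by
      intro x y h
      have h1 : ((x : V) : E d) = ((y : V) : E d) := congrArg (Subtype.val : Lat b → E d) h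
      exact Subtype.ext (Subtype.ext h1)
    exact DiscreteTopology.of_continuous_injective hf hfi
  have hspan : Submodule.span ℝ (M : Set V) = ⊤ := by
    rw [eq_top_iff, ← Submodule.span_span_coe_preimage (R := ℝ) (s := K ∩ (Lat b : Set (E d)))]
    apply Submodule.span_mono
    intro x hx
    exact hx.2
  have hZ : IsZLattice ℝ M := ⟨hspan⟩
  have hfree : Module.Free ℤ M := ZLattice.module_free ℝ M
  have hfin : Module.Finite ℤ M := ZLattice.module_finite ℝ M
  have hrank : finrank ℤ M = finrank ℝ V := ZLattice.rank ℝ M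
  have he : finrank ℝ V ≤ d := by
    have := Submodule.finrank_le V
    rwa [finrank_euclideanSpace, Fintype.card_fin] at this
  let bM : Basis (Fin (finrank ℝ V)) ℤ M := finBasisOfFinrankEq ℤ M hrank
  let bV : Basis (Fin (finrank ℝ V)) ℝ V := bM.ofZLatticeBasis ℝ M
  have hbV : Submodule.span ℤ (Set.range bV) = M := bM.ofZLatticeBasis_span ℝ
  let b' : Basis (Fin (finrank ℝ V)) ℝ (E (finrank ℝ V)) :=
    (EuclideanSpace.basisFun (Fin (finrank ℝ V)) ℝ).toBasis
  let φ : E (finrank ℝ V) ≃ₗ[ℝ] V := b'.equiv bV (Equiv.refl _)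
  have hφ : ∀ i, φ (b' i) = bV i := fun i => by
    simp [φ]
  have hφ' : ∀ i, φ.symm (bV i) = b' i := fun i => by
    rw [← hφ, LinearEquiv.symm_apply_apply]
  let T : E (finrank ℝ V) →ₗ[ℝ] E d := V.subtype ∘ₗ φ.toLinearMap
  have hT : ∀ z, T z = (φ z : E d) := fun z => rfl
  have hTinj : Function.Injective T := by
    intro x y h
    exact φ.injective (Subtype.ext h)
  have hlat1 : ∀ z ∈ Lat b', T z ∈ Lat b := by
    intro z hz
    have h1 : (Lat b').map ((φ.toLinearMap : E (finrank ℝ V) →ₗ[ℝ] V).restrictScalars ℤ) ≤ M := by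
      rw [Submodule.map_span, ← hbV]
      apply Submodule.span_mono
      rintro _ ⟨_, ⟨i, rfl⟩, rfl⟩
      exact ⟨i, (hφ i).symm⟩
    have h2 : φ z ∈ M := h1 ⟨z, hz, rfl⟩
    exact h2
  have hlat2 : ∀ x ∈ Lat b, x ∈ V → ∃ z ∈ Lat b', T z = x := by
    intro x hx hxV
    have h1 : M.map ((φ.symm.toLinearMap : V →ₗ[ℝ] E (finrank ℝ V)).restrictScalars ℤ) ≤
        Lat b' := by
      rw [← hbV, Submodule.map_span]
      apply Submodule.span_mono
      rintro _ ⟨_, ⟨i, rfl⟩, rfl⟩
      exact ⟨i, (hφ' i).symm⟩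
    have h2 : φ.symm ⟨x, hxV⟩ ∈ Lat b' := h1 ⟨⟨x, hxV⟩, hx, rfl⟩
    refine ⟨_, h2, ?_⟩
    rw [hT, LinearEquiv.apply_symm_apply]
  have hTcont : Continuous T := T.continuous_of_finiteDimensional
  have h0 : (0 : E d) ∈ interior K := zero_mem_interior K hc hint hsymm
  have hK'int : (interior (T ⁻¹' K)).Nonempty := by
    refine ⟨0, preimage_interior_subset_interior_preimage hTcont ?_⟩
    show T 0 ∈ interior K
    rw [map_zero]
    exact h0
  have hsub : ∀ t : ℝ, 0 < t → T '' ((t • (T ⁻¹' K)) ∩ (Lat b' : Set (E (finrank ℝ V)))) ⊆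
      (t • K) ∩ (Lat b : Set (E d)) := by
    rintro t ht _ ⟨_, ⟨⟨z, hz, rfl⟩, hz2⟩, rfl⟩
    refine ⟨⟨T z, hz, ?_⟩, hlat1 _ hz2⟩
    show t • T z = T (t • z)
    rw [map_smul]
  refine ⟨finrank ℝ V, he, b', T ⁻¹' K, hc.linear_preimage T, ?_, hK'int, ?_, ?_, ?_, ?_⟩
  · exact (LinearMap.isClosedEmbedding_of_injective (LinearMap.ker_eq_bot.2 hTinj)).isCompact_preimage
      hcomp
  · intro x hx
    show T (-x) ∈ K
    rw [map_neg]
    exact hsymm _ hx
  · have h1 : K ∩ (Lat b : Set (E d)) = T '' ((T ⁻¹' K) ∩ (Lat b' : Set (E (finrank ℝ V)))) := by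
      ext x
      constructor
      · rintro ⟨hx1, hx2⟩
        obtain ⟨z, hz, rfl⟩ := hlat2 x hx2 (Submodule.subset_span ⟨hx1, hx2⟩)
        exact ⟨z, ⟨hx1, hz⟩, rfl⟩
      · rintro ⟨z, ⟨hz1, hz2⟩, rfl⟩
        exact ⟨hz1, hlat1 z hz2⟩
    rw [h1, Set.ncard_image_of_injective _ hTinj]
  · intro i
    apply csInf_le (lamSet_bddBelow b K _)
    refine ⟨one_pos, ?_⟩
    rw [one_smul]
    exact i.isLt
  · intro i
    apply csInf_le_csInf (lamSet_bddBelow b K _)
      (lamSet_nonempty b' (T ⁻¹' K) (hc.linear_preimage T) hK'int (by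
        intro x hx
        show T (-x) ∈ K
        rw [map_neg]
        exact hsymm _ hx) i)
    rintro t ⟨ht, h⟩
    refine ⟨ht, le_trans h ?_⟩
    have h2 : finrank ℝ (Submodule.span ℝ ((t • (T ⁻¹' K)) ∩ (Lat b' : Set (E (finrank ℝ V))))) =
        finrank ℝ (Submodule.span ℝ
          (T '' ((t • (T ⁻¹' K)) ∩ (Lat b' : Set (E (finrank ℝ V)))))) := by
      rw [← Submodule.map_span]
      exact (LinearEquiv.finrank_eq (Submodule.equivMapOfInjective T hTinj _))
    rw [h2]
    exact Submodule.finrank_mono (Submodule.span_mono (hsub t ht))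

end Pool.Agent.SMG
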