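import Pool.Agent.SMG.Min
import Pool.Agent.SMG.Red

/-!
The bound, with conditions only on the pairs of minima that are at most `1`.
-/

set_option autoImplicit false
open scoped Pointwise
open Module

namespace Pool.Agent.SMG

open Pool.Agent.Helper85.BHW (E Lat lam lam_pos lam_mono)

theorem prod_castLE {d e : ℕ} (he : e ≤ d) (n : Fin d → ℕ) (hn : ∀ i, 0 < n i) :
    ∏ i : Fin e, n (Fin.castLE he i) ≤ ∏ i : Fin d, n i := by
  classical
  have h1 : ∏ i : Fin e, n (Fin.castLE he i) =
      ∏ i ∈ Finset.univ.map (Fin.castLEEmb he), n i := by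
    rw [Finset.prod_map]
    rfl
  rw [h1]
  exact Finset.prod_le_prod_of_subset_of_one_le' (Finset.subset_univ _) fun i _ _ => hn i

/-- the bound -/
theorem bound {d : ℕ} (b : Basis (Fin d) ℝ (E d))
    (K : Set (E d)) (hc : Convex ℝ K) (hcomp : IsCompact K) (hint : (interior K).Nonempty)
    (hsymm : ∀ x ∈ K, -x ∈ K) (n : Fin d → ℕ) (hn : ∀ i, 2 < n i * lam b K i)
    (hsep : ∀ i j : Fin d, j.val = i.val + 1 → j.val + 1 < d →
      1 < lam b K j ∨ n j ∣ n i ∨ (i.val ≤ 1 ∧ n j ≤ n i) ∨
      ∃ t : ℕ, t * n j ≤ n i ∧ (i.val + 1) * (n j + n i) ≤ t * n j * (n i - n j)) :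
    (K ∩ (Lat b : Set (E d))).ncard ≤ ∏ i, n i := by
  have hn0 : ∀ i, 0 < n i := by
    intro i
    rcases Nat.eq_zero_or_pos (n i) with h | h
    · have := hn i
      rw [h] at this
      norm_num at this
    · exact h
  obtain ⟨e, he, b', K', hc', hcomp', hint', hsymm', hcard, hle1, hle⟩ :=
    reduce b K hc hcomp hint hsymm
  rw [hcard]
  refine le_trans ?_ (prod_castLE he n hn0)
  apply sep_bound3 Pool.Agent.PLMF.planar Pool.Agent.PLMF.windS b' K' hc' hcomp' hint' hsymm'
    (fun i => n (Fin.castLE he i))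
  · intro i
    refine lt_of_lt_of_le (hn (Fin.castLE he i)) ?_
    exact mul_le_mul_of_nonneg_left (hle i) (Nat.cast_nonneg _)
  intro i j hij hj
  rcases hsep (Fin.castLE he i) (Fin.castLE he j) hij (by
      show (j : ℕ) + 1 < d
      omega) with h | h | ⟨h, h'⟩ | ⟨t, ht1, ht2⟩
  · exact absurd h (not_lt.2 (hle1 j))
  · exact Or.inl (Or.inl h)
  · have h1 : i.val = 0 ∨ i.val = 1 := by
      have h2 : i.val ≤ 1 := h
      omega
    rcases h1 with h1 | h1
    · refine Or.inl (Or.inr (Or.inl ?_))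
      rw [h1]
      simpa using h'
    · exact Or.inl (Or.inr (Or.inr ⟨by omega, h'⟩))
  · right
    have h1 := hn0 (Fin.castLE he i)
    have ht2' : (i.val + 1) * (n (Fin.castLE he j) + n (Fin.castLE he i)) ≤
      t * n (Fin.castLE he j) * (n (Fin.castLE he i) - n (Fin.castLE he j)) := ht2
    have hpos1 : 0 < (i.val + 1) * (n (Fin.castLE he j) + n (Fin.castLE he i)) :=
      Nat.mul_pos (Nat.succ_pos _) (by omega)
    have hpos2 := lt_of_lt_of_le hpos1 ht2'
    have hlt : n (Fin.castLE he j) < n (Fin.castLE he i) := by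
      by_contra hcon
      have : n (Fin.castLE he i) - n (Fin.castLE he j) = 0 := by omega
      rw [this, mul_zero] at hpos2
      exact lt_irrefl _ hpos2
    have ht0 : 0 < t := by
      rcases Nat.eq_zero_or_pos t with h | h
      · rw [h, zero_mul, zero_mul] at hpos2
        exact absurd hpos2 (lt_irrefl _)
      · exact h
    exact ⟨t, ht0, hlt, ht1, ht2'⟩

end Pool.Agent.SMG
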