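import Pool.Agent.SMG.Min

/-!
The Betke-Henk-Wills bound under conditions on the differences of consecutive floors, and the
dilates of a body.
-/

set_option autoImplicit false
open scoped Pointwise
open Module

namespace Pool.Agent.SMG

open Pool.Agent.Helper85.BHW (E Lat lam lam_pos lam_mono lamSet)

/-- `8 q ≥ 16 p + 9 k` gives a good pair -/
theorem good_of_double {k p q : ℕ} (hk : 0 < k) (hp : 0 < p) (h : 16 * p + 9 * k ≤ 8 * q) :
    ∃ t : ℕ, 0 < t ∧ p < q ∧ t * p ≤ q ∧ k * (p + q) ≤ t * p * (q - p) := by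
  have hpq : p < q := by omega
  obtain ⟨D, rfl⟩ := Nat.exists_eq_add_of_lt hpq
  refine ⟨(p + D + 1) / p, Nat.div_pos (by omega) hp, hpq, Nat.div_mul_le_self _ _, ?_⟩
  have h1 : (p + D + 1) < ((p + D + 1) / p + 1) * p := by
    have := Nat.lt_div_mul_add (a := p + D + 1) (b := p) hp
    rw [add_mul, one_mul]
    exact this
  have h2 : D + 2 ≤ (p + D + 1) / p * p := by
    rw [add_mul, one_mul] at h1
    omega
  have e : p + D + 1 - p = D + 1 := by omega
  rw [e]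
  refine le_trans ?_ (Nat.mul_le_mul_right _ h2)
  -- `D + 1 ≥ p + 9 k / 8`
  have h3 : 8 * p + 9 * k ≤ 8 * (D + 1) := by omega
  zify at h3 ⊢
  nlinarith [sq_nonneg (2 * (D : ℤ) + 2 - 3 * k), sq_nonneg ((D : ℤ)), h3, hk]

/-- `p ≥ 3 k` and `q ≥ p + 3 k` gives a good pair -/
theorem good_of_add {k p q : ℕ} (hk : 0 < k) (hp : 3 * k ≤ p) (h : p + 3 * k ≤ q) :
    ∃ t : ℕ, 0 < t ∧ p < q ∧ t * p ≤ q ∧ k * (p + q) ≤ t * p * (q - p) := by
  refine ⟨1, one_pos, by omega, by omega, ?_⟩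
  obtain ⟨D, rfl⟩ := Nat.exists_eq_add_of_le h
  obtain ⟨P, rfl⟩ := Nat.exists_eq_add_of_le hp
  have e : 3 * k + P + 3 * k + D - (3 * k + P) = 3 * k + D := by omega
  rw [e, one_mul]
  nlinarith [Nat.zero_le (k * P), Nat.zero_le (k * D), Nat.zero_le (P * D)]

end Pool.Agent.SMG
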