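import Pool.Agent.Helper86.BHW.Sep

/-!
Comparison of the residue classes hit by a convex set `N` modulo `p < q`, when `N` contains a
representative of every class modulo `(p + q) / (q - p)` (the classes of real vectors).
The proof compares both numbers with the number of classes of the points of a fine grid in `N`
modulo `(p + q) / 2`.
-/

set_option autoImplicit false

open Module
open Pool.Agent.Helper86.BHW

namespace Pool.Agent.SMG

/-- a set of representatives with all coordinates in the grid `1 / (m (q - p))` -/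
theorem sel {ι : Type*} (N : Set (ι → ℝ)) (p q : ℕ) (hpq : p < q)
    (hcov : ∀ v : ι → ℝ, ∃ z : ι → ℤ, v + (((p : ℝ) + q) / ((q : ℝ) - p)) • cz z ∈ N)
    (m : ℕ) (hm : 0 < m) (c : ι → ZMod (m * (p + q))) :
    ∃ a : ι → ℤ, red (m * (p + q)) a = c ∧ (1 / ((m : ℝ) * ((q : ℝ) - p))) • cz a ∈ N := by
  have hd : (0 : ℝ) < (q : ℝ) - p := by
    have : (p : ℝ) < q := by exact_mod_cast hpq
    linarith
  have hm' : (0 : ℝ) < m := by exact_mod_cast hm
  obtain ⟨v, rfl⟩ := red_surj (m * (p + q)) c
  obtain ⟨z, hz⟩ := hcov ((1 / ((m : ℝ) * ((q : ℝ) - p))) • cz v)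
  refine ⟨v + ((m * (p + q) : ℕ) : ℤ) • z, ?_, ?_⟩
  · rw [red_eq_iff]
    exact ⟨z, by abel⟩
  · rw [cz_add, cz_smul, smul_add, smul_smul]
    have e : 1 / ((m : ℝ) * ((q : ℝ) - p)) * (((m * (p + q) : ℕ) : ℤ) : ℝ) =
        ((p : ℝ) + q) / ((q : ℝ) - p) := by
      push_cast
      field_simp
    rw [e]
    exact hz

/-- the comparison for fat sets -/
theorem fat {ι : Type*} [Fintype ι] (N : Set (ι → ℝ)) (hN : Convex ℝ N) (p q : ℕ) (hp : 0 < p)
    (hpq : p < q)
    (hcov : ∀ v : ι → ℝ, ∃ z : ι → ℤ, v + (((p : ℝ) + q) / ((q : ℝ) - p)) • cz z ∈ N) :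
    (hit q N).ncard * p ^ Fintype.card ι ≤ (hit p N).ncard * q ^ Fintype.card ι := by
  classical
  have hq : 0 < q := lt_trans hp hpq
  have hs : 0 < p + q := by omega
  have hd : (0 : ℝ) < (q : ℝ) - p := by
    have : (p : ℝ) < q := by exact_mod_cast hpq
    linarith
  have hp' : (0 : ℝ) < p := by exact_mod_cast hp
  have hq' : (0 : ℝ) < q := by exact_mod_cast hq
  have hs' : (0 : ℝ) < (p : ℝ) + q := by linarith
  have : NeZero p := ⟨hp.ne'⟩
  have : NeZero q := ⟨hq.ne'⟩
  have : NeZero (p * (p + q)) := ⟨(Nat.mul_pos hp hs).ne'⟩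
  have : NeZero (q * (p + q)) := ⟨(Nat.mul_pos hq hs).ne'⟩
  have : NeZero (p * q * (p + q)) := ⟨(Nat.mul_pos (Nat.mul_pos hp hq) hs).ne'⟩
  set M : Set (ι → ℝ) := {x | (1 / (2 * (p : ℝ) * q)) • x ∈ N} with hM
  choose A hA1 hA2 using sel N p q hpq hcov p hp
  choose C hC1 hC2 using sel N p q hpq hcov q hq
  -- first step
  have h1 : (hit q N).ncard * (p * (p + q)) ^ Fintype.card ι ≤
      (hit (p * q * (p + q)) M).ncard := by
    have hrep : ∀ c ∈ hit q N, ∃ z ∈ ipts N, red q z = c := fun c hc => hc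
    choose! g hg1 hg2 using hrep
    have e1 : (hit q N).ncard * (p * (p + q)) ^ Fintype.card ι =
        ((hit q N) ×ˢ (Set.univ : Set (ι → ZMod (p * (p + q))))).ncard := by
      rw [Set.ncard_prod, Set.ncard_univ, Nat.card_eq_fintype_card, Fintype.card_fun, ZMod.card]
    rw [e1]
    apply Set.ncard_le_ncard_of_injOn
      (fun s => red (p * q * (p + q)) (((p * (p + q) : ℕ) : ℤ) • g s.1 + A s.2)) _ _
      (Set.toFinite _)
    · rintro ⟨b, a⟩ hm
      have hb : b ∈ hit q N := hm.1
      refine ⟨_, ?_, rfl⟩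
      show (1 / (2 * (p : ℝ) * q)) • cz (((p * (p + q) : ℕ) : ℤ) • g b + A a) ∈ N
      have h2 : cz (g b) ∈ N := hg1 b hb
      have h3 := hA2 a
      have h4 := hN h2 h3 (a := ((p : ℝ) + q) / (2 * q)) (b := ((q : ℝ) - p) / (2 * q))
        (by positivity) (by positivity) (by field_simp; ring)
      have e : (1 / (2 * (p : ℝ) * q)) • cz (((p * (p + q) : ℕ) : ℤ) • g b + A a) =
          (((p : ℝ) + q) / (2 * q)) • cz (g b) +
          (((q : ℝ) - p) / (2 * q)) • (1 / ((p : ℝ) * ((q : ℝ) - p))) • cz (A a) := by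
        rw [cz_add, cz_smul, smul_add, smul_smul, smul_smul]
        congr 2
        · push_cast
          field_simp
        · field_simp
      rw [e]
      exact h4
    · rintro ⟨b, a⟩ hm ⟨b', a'⟩ hm' h
      have hb : b ∈ hit q N := hm.1
      have hb' : b' ∈ hit q N := hm'.1
      simp only at h
      obtain ⟨z, hz⟩ := red_eq_iff.1 h
      have ha : a = a' := by
        rw [← hA1 a, ← hA1 a', red_eq_iff]
        refine ⟨(q : ℤ) • z - (g b - g b'), ?_⟩
        have h5 : A a - A a' = ((p * q * (p + q) : ℕ) : ℤ) • z -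
            ((p * (p + q) : ℕ) : ℤ) • (g b - g b') := by
          rw [← hz, smul_sub]
          abel
        rw [h5, smul_sub (((p * (p + q) : ℕ) : ℤ)) ((q : ℤ) • z), smul_smul]
        congr 2
        push_cast
        ring
      subst ha
      have hbb : b = b' := by
        rw [← hg2 b hb, ← hg2 b' hb', red_eq_iff]
        refine ⟨z, ?_⟩
        have h5 : ((p * (p + q) : ℕ) : ℤ) • (g b - g b') =
            ((p * (p + q) : ℕ) : ℤ) • ((q : ℤ) • z) := by
          have h6 : ((p * (p + q) : ℕ) : ℤ) • (g b - g b') = ((p * q * (p + q) : ℕ) : ℤ) • z := by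
            rw [← hz, smul_sub]
            abel
          rw [h6, smul_smul]
          congr 1
          push_cast
          ring
        have h7 : (((p * (p + q) : ℕ) : ℤ)) ≠ 0 := by
          exact_mod_cast (Nat.mul_pos hp hs).ne'
        exact smul_right_injective _ h7 h5
      rw [hbb]
  -- second step
  have h2 : (hit (p * q * (p + q)) M).ncard ≤
      (hit p N).ncard * (q * (p + q)) ^ Fintype.card ι := by
    have hrep : ∀ c ∈ hit (p * q * (p + q)) M, ∃ z ∈ ipts M, red (p * q * (p + q)) z = c :=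
      fun c hc => hc
    choose! g hg1 hg2 using hrep
    have hy : ∀ c, ∃ y : ι → ℤ, g c + C (red (q * (p + q)) (-(g c))) =
        ((q * (p + q) : ℕ) : ℤ) • y := by
      intro c
      have h3 := hC1 (red (q * (p + q)) (-(g c)))
      obtain ⟨y, hy⟩ := red_eq_iff.1 h3
      refine ⟨y, ?_⟩
      rw [← hy]
      abel
    choose Y hY using hy
    have e1 : (hit p N).ncard * (q * (p + q)) ^ Fintype.card ι =
        ((hit p N) ×ˢ (Set.univ : Set (ι → ZMod (q * (p + q))))).ncard := by
      rw [Set.ncard_prod, Set.ncard_univ, Nat.card_eq_fintype_card, Fintype.card_fun, ZMod.card]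
    rw [e1]
    apply Set.ncard_le_ncard_of_injOn
      (fun c => (red p (Y c), red (q * (p + q)) (-(g c)))) _ _ (Set.toFinite _)
    · intro c hc
      refine ⟨⟨Y c, ?_, rfl⟩, Set.mem_univ _⟩
      show cz (Y c) ∈ N
      have h3 : (1 / (2 * (p : ℝ) * q)) • cz (g c) ∈ N := hg1 c hc
      have h4 := hC2 (red (q * (p + q)) (-(g c)))
      have h5 := hN h3 h4 (a := 2 * (p : ℝ) / (p + q)) (b := ((q : ℝ) - p) / (p + q))
        (by positivity) (by positivity) (by field_simp; ring)
      have e : cz (Y c) = (2 * (p : ℝ) / (p + q)) • (1 / (2 * (p : ℝ) * q)) • cz (g c) +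
          (((q : ℝ) - p) / (p + q)) • (1 / ((q : ℝ) * ((q : ℝ) - p))) •
            cz (C (red (q * (p + q)) (-(g c)))) := by
        have h6 := congrArg cz (hY c)
        rw [cz_add, cz_smul] at h6
        have h7 : cz (Y c) = (1 / ((q : ℝ) * (p + q))) •
            ((((q * (p + q) : ℕ) : ℤ) : ℝ) • cz (Y c)) := by
          rw [smul_smul]
          have : 1 / ((q : ℝ) * (p + q)) * (((q * (p + q) : ℕ) : ℤ) : ℝ) = 1 := by
            push_cast
            field_simp
          rw [this, one_smul]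
        rw [h7, ← h6, smul_add, smul_smul, smul_smul]
        congr 2
        · field_simp
        · field_simp
      rw [e]
      exact h5
    · intro c hc c' hc' h
      simp only [Prod.mk.injEq] at h
      obtain ⟨h3, h4⟩ := h
      obtain ⟨z, hz⟩ := red_eq_iff.1 h3
      rw [← hg2 c hc, ← hg2 c' hc', red_eq_iff]
      refine ⟨z, ?_⟩
      have h5 := hY c
      have h6 := hY c'
      rw [← h4] at h6
      have h7 : g c - g c' = ((q * (p + q) : ℕ) : ℤ) • (Y c - Y c') := by
        rw [smul_sub, ← h5, ← h6]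
        abel
      rw [h7, hz, smul_smul]
      congr 1
      push_cast
      ring
  have h3 := h1.trans h2
  rw [mul_pow, mul_pow, ← mul_assoc, ← mul_assoc] at h3
  exact Nat.le_of_mul_le_mul_right h3 (Nat.pow_pos hs)

end Pool.Agent.SMG
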