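import Pool.Agent.SMG.Fat

/-!
Comparison of the residue classes hit by a convex set of dimension `k` modulo `p < q`, when for
some `t` we have `t p ≤ q` and `k (p + q) ≤ t p (q - p)`.
-/

set_option autoImplicit false

open Module
open Pool.Agent.Helper86.BHW

namespace Pool.Agent.SMG

/-- the comparison theorem -/
theorem sep3 (k : ℕ) : ∀ (ι : Type) [Fintype ι], Fintype.card ι = k → ∀ (N : Set (ι → ℝ)),
    Convex ℝ N → ∀ p q t : ℕ, 0 < p → p < q → 0 < t → t * p ≤ q →
    k * (p + q) ≤ t * p * (q - p) →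
    (hit q N).ncard * p ^ k ≤ (hit p N).ncard * q ^ k := by
  induction k using Nat.strong_induction_on with
  | _ k ih =>
  intro ι _ hcard N hN p q t hp hpq ht htq hkq
  classical
  have hq : 0 < q := lt_trans hp hpq
  have : NeZero p := ⟨hp.ne'⟩
  have : NeZero q := ⟨hq.ne'⟩
  rcases N.eq_empty_or_nonempty with rfl | hne
  · have : hit q (∅ : Set (ι → ℝ)) = ∅ := by
      rw [hit, Set.image_eq_empty]
      ext z
      simp [ipts]
    rw [this]
    simp
  have hd : (0 : ℝ) < (q : ℝ) - p := by
    have : (p : ℝ) < q := by exact_mod_cast hpq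
    linarith
  have hp' : (0 : ℝ) < p := by exact_mod_cast hp
  have hq' : (0 : ℝ) < q := by exact_mod_cast hq
  by_cases hyp : ∀ U : Submodule ℝ (ι → ℝ), U ≠ ⊤ → ∃ x ∈ N, ∃ y ∈ N, ∃ m ∈ intSub ι,
      ∃ u ∈ U, m ∉ U ∧ x - y = ((t : ℝ) * p) • m + u
  · -- the fat case
    have h1 := fat N hN p q hp hpq (by
      intro v
      have hle : (finrank ℝ (ι → ℝ) : ℝ) * (((p : ℝ) + q) / ((q : ℝ) - p)) ≤ (t : ℝ) * p := by
        rw [Module.finrank_pi, hcard, mul_div_assoc', div_le_iff₀ hd]
        have h2 : ((k * (p + q) : ℕ) : ℝ) ≤ ((t * p * (q - p) : ℕ) : ℝ) := by exact_mod_cast hkq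
        rw [Nat.cast_mul, Nat.cast_mul, Nat.cast_mul, Nat.cast_sub hpq.le, Nat.cast_add] at h2
        exact h2
      obtain ⟨m, hm, h⟩ := cover (intSub ι) (((p : ℝ) + q) / ((q : ℝ) - p)) ((t : ℝ) * p)
        (by positivity) hle N hN hne hyp v
      obtain ⟨z, rfl⟩ := mem_intSub.1 hm
      exact ⟨z, h⟩)
    rwa [hcard] at h1
  · push Not at hyp
    obtain ⟨U, hU, hyp⟩ := hyp
    obtain ⟨i, r, hr, hir, b, hb⟩ := exists_adapted U hU
    have hk : 0 < k := by omega
    have hik : i < k := by omega
    set N' : Set (Fin i ⊕ Fin r → ℝ) := {x | ∑ j, x j • cz (b j) ∈ N} with hN'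
    have hN'c : Convex ℝ N' := by
      intro x hx y hy a c ha hc hac
      have h := hN hx hy ha hc hac
      show ∑ j, (a • x + c • y) j • cz (b j) ∈ N
      have e : ∑ j, (a • x + c • y) j • cz (b j) =
          a • ∑ j, x j • cz (b j) + c • ∑ j, y j • cz (b j) := by
        rw [Finset.smul_sum, Finset.smul_sum, ← Finset.sum_add_distrib]
        apply Finset.sum_congr rfl
        intro j _
        simp only [Pi.add_apply, Pi.smul_apply, smul_eq_mul, add_smul, smul_smul]
      rw [e]
      exact h
    have hmem : ∀ z : Fin i ⊕ Fin r → ℤ, z ∈ ipts N' ↔ cz (b.equivFun.symm z) ∈ N := by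
      intro z
      show ∑ j, cz z j • cz (b j) ∈ N ↔ _
      have e : ∑ j, cz z j • cz (b j) = cz (b.equivFun.symm z) := by
        rw [Basis.equivFun_symm_apply]
        funext j
        simp [cz, Finset.sum_apply]
      rw [e]
    have hrepr : ∀ z : Fin i ⊕ Fin r → ℤ, ∀ j, b.repr (b.equivFun.symm z) j = z j := by
      intro z j
      rw [← Basis.equivFun_apply, LinearEquiv.apply_symm_apply]
    have hinj : ∀ z ∈ ipts N', ∀ z' ∈ ipts N',
        red (t * p) (z ∘ Sum.inr) = red (t * p) (z' ∘ Sum.inr) →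
        z ∘ Sum.inr = z' ∘ Sum.inr := by
      intro z hz z' hz' h
      obtain ⟨w, hw⟩ := red_eq_iff.1 h
      set m0 := b.equivFun.symm (Sum.elim 0 w) with hm0
      set u0 := b.equivFun.symm (Sum.elim ((z - z') ∘ Sum.inl) 0) with hu0
      have e1 : b.equivFun.symm z - b.equivFun.symm z' = ((t * p : ℕ) : ℤ) • m0 + u0 := by
        rw [hm0, hu0, ← map_sub, ← map_smul, ← map_add]
        congr 1
        funext j
        cases j with
        | inl j => simp
        | inr j =>
          have := congrFun hw j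
          simpa using this
      have hu0U : cz u0 ∈ U := by
        rw [hb]
        intro c
        rw [hu0, hrepr]
        rfl
      have h5 := hyp _ ((hmem z).1 hz) _ ((hmem z').1 hz') (cz m0) ⟨m0, rfl⟩ (cz u0) hu0U
      have h6 : cz m0 ∈ U := by
        by_contra hcon
        apply h5 hcon
        rw [← cz_sub, e1, cz_add, cz_smul]
        push_cast
        rfl
      rw [hb] at h6
      have hw0 : w = 0 := by
        funext c
        have := h6 c
        rw [hm0, hrepr] at this
        exact this
      rw [hw0, smul_zero] at hw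
      exact sub_eq_zero.1 hw
    have h7 := count N' t p q ht hp hq htq hinj (by
      intro y
      have h8 := ih i hik (Fin i) (Fintype.card_fin i) (slice N' y) (slice_convex hN'c y) p q t hp
        hpq ht htq (le_trans (Nat.mul_le_mul_right _ hik.le) hkq)
      rwa [Fintype.card_fin])
    rw [Fintype.card_fin, Fintype.card_fin, hir, hcard] at h7
    rw [hN', hit_basis, hit_basis] at h7
    exact h7

end Pool.Agent.SMG
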