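import Pool.Agent.SMG.Flag
import Pool.Agent.PLM.Min2
import Pool.Agent.PLM.Final
import Pool.Agent.Helper85.BHW.Final

/-!
From convex bodies and successive minima to the flag theorem, with the winding lemma for the
last minimum.
-/

set_option autoImplicit false
open scoped Pointwise
open Module

namespace Pool.Agent.SMG

open Pool.Agent
open Pool.Agent.Helper86.BHW
open Pool.Agent.PLMF (Good2 Good2.le WindS)
open Pool.Agent.Helper85.BHW (E Lat lam lam_pos lam_mono finrank_le_of_lt_lam finrank_span_le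
  adapted_basis zero_mem_interior smul_subset_smul_of_le')

theorem Good3.le {k q p : ℕ} (hk : 0 < k) (hq : 0 < q) (h : Good3 k q p) : p ≤ q := by
  rcases h with h | ⟨t, ht, hpq, htq, h⟩
  · exact Good2.le hk hq h
  · exact hpq.le

/-- the bound, under the assumption that the last modulus is not larger than the one before -/
theorem sep_bound_aux3 (hP : PLM.Planar) (hW : WindS) {d : ℕ} (b : Basis (Fin (d + 1)) ℝ (E (d + 1)))
    (K : Set (E (d + 1))) (hc : Convex ℝ K) (hcomp : IsCompact K) (hint : (interior K).Nonempty)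
    (hsymm : ∀ x ∈ K, -x ∈ K) (n : Fin (d + 1) → ℕ) (hn : ∀ i, 2 < n i * lam b K i)
    (hgood : ∀ i j : Fin (d + 1), (j : ℕ) = i + 1 → (j : ℕ) < d → Good3 (i + 1) (n i) (n j))
    (hle : ∀ i : Fin (d + 1), (i : ℕ) + 1 = d → n (Fin.last d) ≤ n i) :
    (K ∩ (Lat b : Set (E (d + 1)))).ncard ≤ ∏ i, n i := by
  classical
  have hpos := lam_pos b K hc hcomp hint hsymm
  have h0 : (0 : E (d + 1)) ∈ K := interior_subset (zero_mem_interior K hc hint hsymm)
  have hnhds : K ∈ nhds (0 : E (d + 1)) :=
    mem_interior_iff_mem_nhds.1 (zero_mem_interior K hc hint hsymm)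
  have habs : Absorbent ℝ K := absorbent_nhds_zero hnhds
  have hn0 : ∀ i, 0 < n i := by
    intro i
    rcases Nat.eq_zero_or_pos (n i) with h | h
    · have := hn i
      rw [h] at this
      norm_num at this
    · exact h
  have hn0' : ∀ i, (0 : ℝ) < n i := fun i => by exact_mod_cast hn0 i
  have hanti : ∀ i j : Fin (d + 1), i ≤ j → n j ≤ n i := by
    have h1 : ∀ (k : ℕ) (i j : Fin (d + 1)), (j : ℕ) = i + k → n j ≤ n i := by
      intro k
      induction k with
      | zero =>
        intro i j h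
        have : j = i := Fin.ext (by simpa using h)
        rw [this]
      | succ k ih =>
        intro i j h
        have hj := j.isLt
        have h2 := ih i ⟨i + k, by omega⟩ rfl
        refine le_trans ?_ h2
        by_cases hjd : (j : ℕ) < d
        · exact (hgood ⟨i + k, by omega⟩ j (by simp only; omega) hjd).le (Nat.succ_pos _) (hn0 _)
        · have hjl : n j = n (Fin.last d) := congrArg n (Fin.ext (by simp; omega))
          exact hjl.le.trans (hle ⟨i + k, by omega⟩ (by simp only; omega))
    intro i j hij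
    exact h1 (j - i) i j (by have : (i : ℕ) ≤ j := hij; omega)
  set a : Fin (d + 1) → ℝ := fun i => 2 / n i with ha
  have ha0 : ∀ i, 0 < a i := fun i => div_pos two_pos (hn0' i)
  have hlt : ∀ i, a i < lam b K i := by
    intro i
    rw [ha]
    simp only
    rw [div_lt_iff₀ (hn0' i)]
    have := hn i
    linarith
  have hamono : ∀ i j : Fin (d + 1), i ≤ j → a i ≤ a j := by
    intro i j hij
    apply div_le_div_of_nonneg_left two_pos.le (hn0' j)
    exact_mod_cast hanti i j hij
  let S : Fin (d + 1) → Submodule ℤ (Lat b) := fun i =>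
    Submodule.span ℤ {x : Lat b | (x : E (d + 1)) ∈ (a i) • K}
  have hSmono : Monotone S := by
    intro i j hij
    apply Submodule.span_mono
    intro x hx
    exact smul_subset_smul_of_le' hc h0 (ha0 i) (hamono i j hij) hx
  have hSrank : ∀ i, finrank ℤ (S i) ≤ (i : ℕ) := by
    intro i
    apply finrank_span_le
    exact finrank_le_of_lt_lam b K i _ (ha0 i) (hlt i)
  have hrank : finrank ℤ (Lat b) = d + 1 := by
    rw [ZLattice.rank ℝ (Lat b), finrank_euclideanSpace, Fintype.card_fin]
  obtain ⟨β, hβ⟩ := adapted_basis (d + 1) (Lat b) hrank S hSmono hSrank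
  let T : (Fin (d + 1) → ℝ) →ₗ[ℝ] E (d + 1) :=
    Fintype.linearCombination ℝ (fun j : Fin (d + 1) => ((β j : Lat b) : E (d + 1)))
  have hT : ∀ w, T w = ∑ j, w j • ((β j : Lat b) : E (d + 1)) := fun w =>
    Fintype.linearCombination_apply ℝ _ w
  have hli : LinearIndependent ℝ (fun j : Fin (d + 1) => ((β j : Lat b) : E (d + 1))) := by
    have h1 := (β.ofZLatticeBasis ℝ (Lat b)).linearIndependent
    have h3 : (fun j : Fin (d + 1) => ((β j : Lat b) : E (d + 1))) =
        (β.ofZLatticeBasis ℝ (Lat b)) := by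
      funext j
      simp
    rw [h3]
    exact h1
  have hTinj : Function.Injective T := by
    exact linearIndependent_iff_injective_fintypeLinearCombination.1 hli
  have hTz : ∀ z : Fin (d + 1) → ℤ, T (cz z) = ((∑ j, z j • β j : Lat b) : E (d + 1)) := by
    intro z
    rw [hT]
    simp [cz, Int.cast_smul_eq_zsmul]
  set N : Set (Fin (d + 1) → ℝ) := T ⁻¹' K with hN
  have hNc : Convex ℝ N := hc.linear_preimage T
  have hinj2 : Function.Injective (fun z : Fin (d + 1) → ℤ => T (cz z)) := by
    intro z z' h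
    have h1 := hTinj h
    funext j
    have := congrFun h1 j
    simpa [cz] using this
  have hfinB : ∀ B : Set (E (d + 1)), Bornology.IsBounded B →
      {z : Fin (d + 1) → ℤ | T (cz z) ∈ B}.Finite := by
    intro B hB
    apply Set.Finite.of_finite_image (f := fun z => T (cz z))
    · apply (ZSpan.setFinite_inter b hB).subset
      rintro _ ⟨z, hz, rfl⟩
      refine ⟨hz, ?_⟩
      show T (cz z) ∈ (Lat b : Set (E (d + 1)))
      rw [hTz]
      exact (∑ j, z j • β j : Lat b).2
    · exact hinj2.injOn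
  have hNfin : (ipts N).Finite := hfinB K hcomp.isBounded
  have hflag : ∀ i : Fin (d + 1), ∀ x ∈ ipts N, ∀ y ∈ ipts N, ∀ z : Fin (d + 1) → ℤ,
      x - y = (n i : ℤ) • z → ∀ j : Fin (d + 1), i ≤ j → x j = y j := by
    intro i x hx y hy z hz j hij
    have h1 : T (cz x) ∈ K := hx
    have h2 : -T (cz y) ∈ K := hsymm _ hy
    have h3 : (1 / 2 : ℝ) • T (cz x) + (1 / 2 : ℝ) • (-T (cz y)) ∈ K :=
      hc h1 h2 (by norm_num) (by norm_num) (by norm_num)
    have h4 : T (cz z) ∈ (a i) • K := by
      refine ⟨_, h3, ?_⟩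
      have e1 : T (cz x) - T (cz y) = (n i : ℝ) • T (cz z) := by
        rw [← map_sub, ← map_smul, ← cz_sub, hz, cz_smul]
        simp
      have hne := (hn0' i).ne'
      simp only
      rw [smul_neg, ← sub_eq_add_neg, ← smul_sub, e1, smul_smul, smul_smul]
      have e2 : a i * (1 / 2) * (n i : ℝ) = 1 := by
        rw [ha]
        field_simp
      rw [e2, one_smul]
    rw [hTz] at h4
    have h5 : (∑ j, z j • β j : Lat b) ∈ S i := Submodule.subset_span h4
    have h6 := hβ _ _ h5 j hij
    have h7 : β.repr (∑ j, z j • β j) j = z j := by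
      rw [β.repr_sum_self z]
    rw [h7] at h6
    have h8 := congrFun hz j
    simp only [Pi.sub_apply, Pi.smul_apply, h6, smul_zero] at h8
    exact sub_eq_zero.1 h8
  -- the norm
  let G : (Fin (d + 1) → ℤ) → ℝ := fun z => gauge K (T (cz z))
  have hcl : IsClosed K := hcomp.isClosed
  have hGle : ∀ (z : Fin (d + 1) → ℤ) (t : ℝ), 0 < t → G z ≤ t → T (cz z) ∈ t • K := by
    intro z t ht h
    rw [Set.mem_smul_set_iff_inv_smul_mem₀ ht.ne']
    have h1 : gauge K (t⁻¹ • T (cz z)) ≤ 1 := by
      rw [gauge_smul_of_nonneg (inv_nonneg.2 ht.le), smul_eq_mul, inv_mul_le_iff₀ ht, mul_one]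
      exact h
    rw [gauge_le_one_iff_mem_closure hc hnhds, hcl.closure_eq] at h1
    exact h1
  have hGlast : ∀ z : Fin (d + 1) → ℤ, z (Fin.last d) ≠ 0 → a (Fin.last d) < G z := by
    intro z hz
    by_contra hcon
    push Not at hcon
    have h4 := hGle z _ (ha0 _) hcon
    rw [hTz] at h4
    have h5 : (∑ j, z j • β j : Lat b) ∈ S (Fin.last d) := Submodule.subset_span h4
    have h6 := hβ _ _ h5 (Fin.last d) le_rfl
    have h7 : β.repr (∑ j, z j • β j) (Fin.last d) = z (Fin.last d) := by
      rw [β.repr_sum_self z]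
    rw [h7] at h6
    exact hz h6
  have hGfin : ∀ t : ℝ, 0 < t → {z | G z ≤ t}.Finite := by
    intro t ht
    apply (hfinB (t • K) (hcomp.isBounded.smul₀ t)).subset
    intro z hz
    exact hGle z t ht hz
  -- a shortest vector with last coordinate different from zero
  obtain ⟨w, hw0, hwmin⟩ : ∃ w : Fin (d + 1) → ℤ, w (Fin.last d) ≠ 0 ∧
      ∀ z : Fin (d + 1) → ℤ, z (Fin.last d) ≠ 0 → G w ≤ G z := by
    let z0 : Fin (d + 1) → ℤ := Pi.single (Fin.last d) 1
    have hz0 : z0 (Fin.last d) ≠ 0 := by simp [z0]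
    have hz0' : 0 < G z0 := lt_trans (ha0 _) (hGlast z0 hz0)
    have hfin : ({z | G z ≤ G z0} ∩ {z | z (Fin.last d) ≠ 0}).Finite :=
      (hGfin _ hz0').subset Set.inter_subset_left
    obtain ⟨w, hw, hmin⟩ := Set.exists_min_image _ G hfin ⟨z0, show G z0 ≤ G z0 from le_rfl, hz0⟩
    refine ⟨w, hw.2, ?_⟩
    intro z hz
    rcases le_total (G z) (G z0) with h | h
    · exact hmin z ⟨h, hz⟩
    · exact le_trans (hmin z0 ⟨show G z0 ≤ G z0 from le_rfl, hz0⟩) h
  have hw1 := hGlast w hw0
  have hwpos : 0 < G w := lt_trans (ha0 _) hw1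
  have hcz0 : cz (0 : Fin (d + 1) → ℤ) = 0 := by
    funext j
    simp [cz]
  have hczsmul : ∀ (m : ℤ) (z : Fin (d + 1) → ℤ), T (cz (m • z)) = (m : ℝ) • T (cz z) := by
    intro m z
    rw [cz_smul, map_smul]
  have hGnat : ∀ (m : ℕ) (z : Fin (d + 1) → ℤ), G ((m : ℤ) • z) = m * G z := by
    intro m z
    show gauge K (T (cz ((m : ℤ) • z))) = _
    rw [hczsmul]
    have : ((m : ℤ) : ℝ) = (m : ℝ) := by simp
    rw [this, gauge_smul_of_nonneg (Nat.cast_nonneg m), smul_eq_mul]
  have hGint : ∀ (m : ℤ) (z : Fin (d + 1) → ℤ), G (m • z) = |(m : ℝ)| * G z := by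
    intro m z
    show gauge K (T (cz (m • z))) = _
    rw [hczsmul]
    rcases le_total 0 m with h | h
    · have hR : (0 : ℝ) ≤ m := by exact_mod_cast h
      rw [gauge_smul_of_nonneg hR, abs_of_nonneg hR, smul_eq_mul]
    · have hR : (m : ℝ) ≤ 0 := by exact_mod_cast h
      rw [abs_of_nonpos hR, ← gauge_neg hsymm, ← neg_smul,
        gauge_smul_of_nonneg (by linarith), smul_eq_mul]
  have hGdiff : ∀ x ∈ ipts N, ∀ y ∈ ipts N, G (x - y) ≤ 2 := by
    intro x hx y hy
    show gauge K (T (cz (x - y))) ≤ 2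
    rw [cz_sub, map_sub, sub_eq_add_neg]
    have h1 := gauge_le_one_of_mem (s := K) hx
    have h2 := gauge_le_one_of_mem (s := K) hy
    have h3 := gauge_add_le hc habs (T (cz x)) (-T (cz y))
    rw [gauge_neg hsymm] at h3
    linarith
  have hGadd : ∀ x y : Fin (d + 1) → ℤ, G (x + y) ≤ G x + G y := by
    intro x y
    show gauge K (T (cz (x + y))) ≤ _
    rw [cz_add, map_add]
    exact gauge_add_le hc habs _ _
  have hnw : 2 < (n (Fin.last d) : ℝ) * G w := by
    have := hw1
    simp only [ha] at this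
    rw [div_lt_iff₀ (hn0' _)] at this
    linarith
  -- the modulus of the last step
  obtain ⟨Q, hQ0, hQle, hgoodQ⟩ : ∃ Q : ℕ, 0 < Q ∧ n (Fin.last d) ≤ Q ∧
      ∀ i : Fin (d + 1), (i : ℕ) + 1 = d → Good3 d (n i) Q := by
    by_cases hd : 0 < d
    · refine ⟨n ⟨d - 1, by omega⟩, hn0 _, hle _ (by simp only; omega), ?_⟩
      intro i hi
      have : i = ⟨d - 1, by omega⟩ := Fin.ext (by simp only; omega)
      rw [this]
      exact Or.inl (Or.inl dvd_rfl)
    · refine ⟨n (Fin.last d), hn0 _, le_rfl, ?_⟩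
      intro i hi
      omega
  have hQ0' : (0 : ℝ) < Q := by exact_mod_cast hQ0
  have hQleR : (n (Fin.last d) : ℝ) ≤ Q := by exact_mod_cast hQle
  have hH : ∀ x ∈ ipts N, ∀ y ∈ ipts N, ∀ m : ℤ, |m| ≤ (Q : ℤ) - n (Fin.last d) →
      ∀ z : Fin (d + 1) → ℤ, x - y + m • w = (Q : ℤ) • z → z (Fin.last d) = 0 := by
    intro x hx y hy m hm z hz
    by_contra hcon
    have h1 := hwmin z hcon
    have h2 : G ((Q : ℤ) • z) = Q * G z := hGnat Q z
    have h3 := hGadd (x - y) (m • w)
    rw [hz, h2, hGint] at h3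
    have h4 := hGdiff x hx y hy
    have hmR : |(m : ℝ)| ≤ (Q : ℝ) - n (Fin.last d) := by exact_mod_cast hm
    have h5 : |(m : ℝ)| * G w ≤ ((Q : ℝ) - n (Fin.last d)) * G w :=
      mul_le_mul_of_nonneg_right hmR hwpos.le
    have h6 : (Q : ℝ) * G w ≤ Q * G z := mul_le_mul_of_nonneg_left h1 hQ0'.le
    nlinarith
  have hord : ∀ m : ℤ, ∀ z : Fin (d + 1) → ℤ, m • w = (Q : ℤ) • z → (Q : ℤ) ∣ m := by
    intro m z hz
    -- let `g = gcd m Q`
    have hbez := Int.gcd_eq_gcd_ab m Q
    set g : ℕ := Int.gcd m Q with hg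
    set A := Int.gcdA m Q
    set B := Int.gcdB m Q
    have hgpos : 0 < g := by
      rw [hg, Nat.pos_iff_ne_zero, Ne, Int.gcd_eq_zero_iff]
      rintro ⟨_, h⟩
      have : (Q : ℤ) ≠ 0 := by exact_mod_cast hQ0.ne'
      exact this h
    obtain ⟨k, hk⟩ := Int.gcd_dvd_right m (Q : ℤ)
    rw [← hg] at hk
    have hgw : (g : ℤ) • w = (Q : ℤ) • (A • z + B • w) := by
      rw [hbez, add_smul, smul_add, smul_comm (Q : ℤ) A z, ← hz, smul_smul, smul_smul, mul_comm A m]
    have hkpos : 0 < k := by
      have h1 : (0 : ℤ) < Q := by exact_mod_cast hQ0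
      rw [hk] at h1
      have h2 : (0 : ℤ) < g := by exact_mod_cast hgpos
      exact (mul_pos_iff_of_pos_left h2).1 h1
    have hw' : w = k • (A • z + B • w) := by
      have h1 : (g : ℤ) • w = (g : ℤ) • (k • (A • z + B • w)) := by
        rw [hgw, smul_smul, ← hk]
      have h2 : (g : ℤ) ≠ 0 := by exact_mod_cast hgpos.ne'
      exact smul_right_injective _ h2 h1
    have hk1 : k = 1 := by
      by_contra hne
      have hk2 : 2 ≤ k := by omega
      set u := A • z + B • w with hu
      have hu0 : u (Fin.last d) ≠ 0 := by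
        intro h
        apply hw0
        rw [hw']
        simp [h]
      have h1 := hwmin u hu0
      have h2 : G w = |(k : ℝ)| * G u := by
        conv_lhs => rw [hw']
        exact hGint k u
      have hkR : (2 : ℝ) ≤ k := by exact_mod_cast hk2
      rw [abs_of_pos (by linarith)] at h2
      nlinarith
    rw [hk1, mul_one] at hk
    rw [hk, hg]
    exact Int.gcd_dvd_left m Q
  have hwind := hW d Q (n (Fin.last d)) hQ0 hQle (ipts N) hNfin w hw0 hord hH
  have h9 := flag3 hP d n hn0 Q hQ0 hgood hgoodQ N hNc hNfin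
    (fun i _ => hflag i) (by
      intro x hx y hy z hz
      have h1 := hH x hx y hy 0 (by
        rw [abs_zero]
        have : (n (Fin.last d) : ℤ) ≤ Q := by exact_mod_cast hQle
        omega) z (by rw [zero_smul, add_zero]; exact hz)
      have h2 := congrFun hz (Fin.last d)
      simp only [Pi.sub_apply, Pi.smul_apply, h1, smul_zero] at h2
      exact sub_eq_zero.1 h2) hwind
  refine le_trans ?_ h9
  have hsub : K ∩ (Lat b : Set (E (d + 1))) ⊆ (fun z => T (cz z)) '' ipts N := by
    rintro u ⟨huK, huL⟩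
    have hsum : T (cz (fun j => β.repr ⟨u, huL⟩ j)) = u := by
      rw [hTz, β.sum_repr]
    refine ⟨fun j => β.repr ⟨u, huL⟩ j, ?_, hsum⟩
    show T (cz (fun j => β.repr ⟨u, huL⟩ j)) ∈ K
    rw [hsum]
    exact huK
  calc (K ∩ (Lat b : Set (E (d + 1)))).ncard ≤ ((fun z => T (cz z)) '' ipts N).ncard :=
        Set.ncard_le_ncard hsub (hNfin.image _)
    _ ≤ (ipts N).ncard := Set.ncard_image_le hNfin

/-- the bound -/
theorem sep_bound3 (hP : PLM.Planar) (hW : WindS) {d : ℕ} (b : Basis (Fin d) ℝ (E d))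
    (K : Set (E d)) (hc : Convex ℝ K) (hcomp : IsCompact K) (hint : (interior K).Nonempty)
    (hsymm : ∀ x ∈ K, -x ∈ K) (n : Fin d → ℕ) (hn : ∀ i, 2 < n i * lam b K i)
    (hgood : ∀ i j : Fin d, (j : ℕ) = i + 1 → (j : ℕ) + 1 < d → Good3 (i + 1) (n i) (n j)) :
    (K ∩ (Lat b : Set (E d))).ncard ≤ ∏ i, n i := by
  classical
  cases d with
  | zero =>
    have h1 : (K ∩ (Lat b : Set (E 0))).ncard ≤ 1 := by
      rw [Set.ncard_le_one (Set.toFinite _)]
      intro a _ c _
      exact Subsingleton.elim _ _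
    simpa using h1
  | succ d =>
    by_cases hd : 0 < d
    · let n' : Fin (d + 1) → ℕ := fun i =>
        if i = Fin.last d then min (n (Fin.last d)) (n ⟨d - 1, by omega⟩) else n i
      have hn'le : ∀ i, n' i ≤ n i := by
        intro i
        simp only [n']
        split_ifs with h
        · rw [h]
          exact min_le_left _ _
        · exact le_rfl
      have hne : ∀ i : Fin (d + 1), (i : ℕ) < d → n' i = n i := by
        intro i hi
        simp only [n']
        rw [if_neg]
        intro h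
        rw [h] at hi
        simp at hi
      have hlast : n' (Fin.last d) = min (n (Fin.last d)) (n ⟨d - 1, by omega⟩) := by
        simp [n']
      refine le_trans (sep_bound_aux3 hP hW b K hc hcomp hint hsymm n' ?_ ?_ ?_)
        (Finset.prod_le_prod' fun i _ => hn'le i)
      · intro i
        by_cases h : i = Fin.last d
        · rw [h, hlast]
          rcases le_total (n (Fin.last d)) (n ⟨d - 1, by omega⟩) with h1 | h1
          · rw [min_eq_left h1]
            exact hn _
          · rw [min_eq_right h1]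
            have h2 := hn ⟨d - 1, by omega⟩
            have h3 : lam b K ⟨d - 1, by omega⟩ ≤ lam b K (Fin.last d) :=
              lam_mono b K hc hint hsymm (by
                show (d - 1 : ℕ) ≤ ((Fin.last d : Fin (d + 1)) : ℕ)
                simp)
            calc (2 : ℝ) < n ⟨d - 1, by omega⟩ * lam b K ⟨d - 1, by omega⟩ := h2
              _ ≤ _ := mul_le_mul_of_nonneg_left h3 (Nat.cast_nonneg _)
        · have : (i : ℕ) < d := by
            have h1 := i.isLt
            have h2 : (i : ℕ) ≠ d := fun h3 => h (Fin.ext (by simpa using h3))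
            omega
          rw [hne i this]
          exact hn i
      · intro i j hij hj
        rw [hne i (by omega), hne j hj]
        exact hgood i j hij (by omega)
      · intro i hi
        have h1 : i = ⟨d - 1, by omega⟩ := Fin.ext (by simp only; omega)
        rw [hlast, hne i (by omega), h1]
        exact min_le_right _ _
    · refine sep_bound_aux3 hP hW b K hc hcomp hint hsymm n hn ?_ ?_
      · intro i j hij hj
        omega
      · intro i hi
        omega

end Pool.Agent.SMG
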